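import Mathlib
import Pool.Agent.Q187.Mir.Spec

set_option autoImplicit false

/-!
# MP_5d65a3_an, Q1: mirror-symmetric dimension spectra (negative answer)

There is an infinite conformal iterated function system on the line (with `C ^ ∞` maps) whose
dimension spectrum is `[0, h] ∪ [2 h, 3 h]` for some `h > 0`. This set equals its own mirror image,
but it is not an interval.
-/

open Set Pool.Agent.Q187.Mir

namespace Pool.Agent.Results.MP_5d65a3_an.Mirror

theorem result :
    (∃ (U : CIFS (Bool ⊕ ℕ)) (h : ℝ), 0 < h ∧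
      U.spectrum = Icc 0 h ∪ Icc (2 * h) (3 * h) ∧
      (fun x => sSup U.spectrum - x) '' U.spectrum = U.spectrum ∧
      ¬ ∃ l : ℝ, 0 < l ∧ U.spectrum = Icc 0 l) ∧
    ¬ ∀ (E E' : Type) [Countable E] [Infinite E] [Countable E'] [Infinite E']
      (U : CIFS E) (U' : CIFS E') (K : Set ℝ), K = U.spectrum →
      (fun x => sSup K - x) '' K = U'.spectrum → ∃ l : ℝ, 0 < l ∧ K = Icc 0 l := by
  have key : ∃ (U : CIFS (Bool ⊕ ℕ)) (h : ℝ), 0 < h ∧
      U.spectrum = Icc 0 h ∪ Icc (2 * h) (3 * h) ∧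
      (fun x => sSup U.spectrum - x) '' U.spectrum = U.spectrum ∧
      ¬ ∃ l : ℝ, 0 < l ∧ U.spectrum = Icc 0 l := by
    obtain ⟨P⟩ := exists_par
    have hn := P.n_pos'
    set h : ℝ := 1 / (P.n : ℝ) with hh
    have h0 : 0 < h := by positivity
    have hs : P.cifs.spectrum = Icc 0 h ∪ Icc (2 * h) (3 * h) := by
      rw [P.spectrum_eq, hh]
      congr 2 <;> ring
    have hsup : sSup (Icc 0 h ∪ Icc (2 * h) (3 * h)) = 3 * h := by
      apply IsGreatest.csSup_eq
      refine ⟨Or.inr ⟨by linarith, le_refl _⟩, ?_⟩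
      rintro x (hx | hx)
      · linarith [hx.2]
      · exact hx.2
    refine ⟨P.cifs, h, h0, hs, ?_, ?_⟩
    · rw [hs, hsup]
      ext y
      constructor
      · rintro ⟨x, hx | hx, rfl⟩
        · exact Or.inr ⟨by simp only; linarith [hx.2], by simp only; linarith [hx.1]⟩
        · exact Or.inl ⟨by simp only; linarith [hx.2], by simp only; linarith [hx.1]⟩
      · intro hy
        refine ⟨3 * h - y, ?_, by simp only; ring⟩
        rcases hy with hy | hy
        · exact Or.inr ⟨by linarith [hy.2], by linarith [hy.1]⟩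
        · exact Or.inl ⟨by linarith [hy.2], by linarith [hy.1]⟩
    · rintro ⟨l, hl, h1⟩
      rw [hs] at h1
      have h2 : 3 * h ∈ Icc 0 l := by
        rw [← h1]
        exact Or.inr ⟨by linarith, le_refl _⟩
      have h3 : 3 / 2 * h ∈ Icc 0 h ∪ Icc (2 * h) (3 * h) := by
        rw [h1]
        exact ⟨by linarith, by linarith [h2.2]⟩
      rcases h3 with h3 | h3
      · linarith [h3.2]
      · linarith [h3.1]
  refine ⟨key, fun hall => ?_⟩
  obtain ⟨U, h, _, _, h3, h4⟩ := key
  exact h4 (hall (Bool ⊕ ℕ) (Bool ⊕ ℕ) U U _ rfl h3)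

end Pool.Agent.Results.MP_5d65a3_an.Mirror
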